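import Mathlib

set_option autoImplicit false

namespace Pool.Agent.Helper78.ChainHull

open CategoryTheory

/-- Every module (in `Type`) over a ring in `Type` embeds in an injective one. -/
theorem exists_embedding (R : Type) [CommRing R] (M : Type) [AddCommGroup M] [Module R M] :
    ∃ (E : Type) (_ : AddCommGroup E) (_ : Module R E) (f : M →ₗ[R] E),
      Function.Injective f ∧
      ∀ (X Y : Type) [AddCommGroup X] [AddCommGroup Y] [Module R X] [Module R Y]
        (g : X →ₗ[R] Y), Function.Injective g → ∀ φ : X →ₗ[R] E,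
          ∃ ψ : Y →ₗ[R] E, ∀ a, ψ (g a) = φ a := by
  have : EnoughInjectives (ModuleCat.{0} R) := inferInstance
  let P := (EnoughInjectives.presentation (ModuleCat.of R M)).some
  have : Injective P.J := P.injective
  have : Mono P.f := P.mono
  refine ⟨P.J, inferInstance, inferInstance, P.f.hom, ?_, ?_⟩
  · exact (ModuleCat.mono_iff_injective P.f).1 inferInstance
  · intro X Y _ _ _ _ g hg φ
    have : Mono (ModuleCat.ofHom g) := (ModuleCat.mono_iff_injective _).2 hg
    refine ⟨(Injective.factorThru (ModuleCat.ofHom φ) (ModuleCat.ofHom g)).hom, ?_⟩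
    intro a
    have h := Injective.comp_factorThru (ModuleCat.ofHom φ) (ModuleCat.ofHom g)
    exact congrArg (fun t => t.hom a) h

/-- Zorn: a submodule maximal among those meeting `B` trivially. -/
theorem exists_maximal_disjoint {R X : Type} [CommRing R] [AddCommGroup X] [Module R X]
    (B : Submodule R X) :
    ∃ A : Submodule R X, Disjoint A B ∧ ∀ C : Submodule R X, A ≤ C → Disjoint C B → C = A := by
  have := zorn_le₀ {A : Submodule R X | Disjoint A B} ?_
  · obtain ⟨A, hA⟩ := this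
    refine ⟨A, hA.prop, fun C hC hCB => le_antisymm (hA.2 hCB hC) hC⟩
  · intro c hc hchain
    rcases c.eq_empty_or_nonempty with rfl | hne
    · exact ⟨⊥, disjoint_bot_left, by simp⟩
    · refine ⟨sSup c, ?_, fun z hz => le_sSup hz⟩
      show Disjoint (sSup c) B
      rw [Submodule.disjoint_def]
      intro y hy hyB
      rw [Submodule.mem_sSup_of_directed hne hchain.directedOn] at hy
      obtain ⟨D, hD, hyD⟩ := hy
      exact (Submodule.disjoint_def.1 (hc hD)) y hyD hyB

/-- The injective hull of the cyclic module `R / I` with essential simple socle, in the form used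
here. -/
theorem exists_hull (R : Type) [CommRing R] (P : Ideal R) [P.IsMaximal] :
    ∃ (N : Type) (_ : AddCommGroup N) (_ : Module R N) (x : N),
      x ≠ 0 ∧ (∀ r ∈ P, r • x = 0) ∧ (∀ A : Submodule R N, A ≠ ⊥ → x ∈ A) ∧
      ∀ (X : Type) [AddCommGroup X] [Module R X] (g : N →ₗ[R] X),
        Function.Injective g → ∃ h : X →ₗ[R] N, h ∘ₗ g = LinearMap.id := by
  obtain ⟨E, _, _, f, hf, hE⟩ := exists_embedding R (R ⧸ P)
  set x0 : E := f 1 with hx0
  have hx0ne : x0 ≠ 0 := by
    rw [hx0]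
    intro h
    have : (1 : R ⧸ P) = 0 := hf (by rw [h, map_zero])
    exact one_ne_zero this
  have hPx0 : ∀ r ∈ P, r • x0 = 0 := by
    intro r hr
    rw [hx0, ← map_smul]
    have : r • (1 : R ⧸ P) = 0 := by
      rw [Algebra.smul_def, mul_one]
      exact Ideal.Quotient.eq_zero_iff_mem.2 hr
    rw [this, map_zero]
  -- essential submodules
  let ess : Submodule R E → Prop := fun N => x0 ∈ N ∧ ∀ n ∈ N, n ≠ 0 → ∃ r : R, r • n = x0
  have hZ := zorn_le₀ {N : Submodule R E | ess N} ?_
  swap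
  · intro c hc hchain
    rcases c.eq_empty_or_nonempty with rfl | hne
    · refine ⟨R ∙ x0, ⟨Submodule.mem_span_singleton_self _, ?_⟩, by simp⟩
      intro n hn hn0
      obtain ⟨r, rfl⟩ := Submodule.mem_span_singleton.1 hn
      have hrP : r ∉ P := fun h => hn0 (hPx0 r h)
      obtain ⟨s, hs⟩ := Ideal.IsMaximal.exists_inv (I := P) inferInstance hrP
      obtain ⟨t, ht, hst⟩ := hs
      refine ⟨s, ?_⟩
      rw [smul_smul]
      have : (s * r + t) • x0 = x0 := by rw [hst, one_smul]
      rwa [add_smul, hPx0 t ht, add_zero] at this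
    · refine ⟨sSup c, ?_, fun z hz => le_sSup hz⟩
      refine ⟨?_, ?_⟩
      · obtain ⟨D, hD⟩ := hne
        exact (le_sSup hD : D ≤ sSup c) (hc hD).1
      · intro n hn hn0
        rw [Submodule.mem_sSup_of_directed hne hchain.directedOn] at hn
        obtain ⟨D, hD, hnD⟩ := hn
        exact (hc hD).2 n hnD hn0
  obtain ⟨N, hN⟩ := hZ
  have hNess : ess N := hN.prop
  have hNmax : ∀ M : Submodule R E, N ≤ M → ess M → M ≤ N := fun M h1 h2 => hN.2 h2 h1
  refine ⟨N, inferInstance, inferInstance, ⟨x0, hNess.1⟩, ?_, ?_, ?_, ?_⟩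
  · intro h
    exact hx0ne (congrArg Subtype.val h)
  · intro r hr
    apply Subtype.ext
    exact hPx0 r hr
  · intro A hA
    obtain ⟨a, haA, ha0⟩ := Submodule.exists_mem_ne_zero_of_ne_bot hA
    obtain ⟨r, hr⟩ := hNess.2 a a.2 (fun h => ha0 (Subtype.ext h))
    have : r • a = ⟨x0, hNess.1⟩ := Subtype.ext hr
    rw [← this]
    exact A.smul_mem r haA
  · intro X _ _ g hg
    obtain ⟨A, hAdisj, hAmax⟩ := exists_maximal_disjoint (LinearMap.range g)
    -- the induced map into the quotient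
    let gb : N →ₗ[R] X ⧸ A := A.mkQ ∘ₗ g
    have hgb : Function.Injective gb := by
      rw [← LinearMap.ker_eq_bot, LinearMap.ker_eq_bot']
      intro n hn
      have h1 : g n ∈ A := (Submodule.Quotient.mk_eq_zero A).1 hn
      have h2 := (Submodule.disjoint_def.1 hAdisj) (g n) h1 ⟨n, rfl⟩
      exact hg (by rw [h2, map_zero])
    have hgbess : ∀ w : X ⧸ A, w ≠ 0 → ∃ r : R, ∃ n : N, r • w = gb n ∧ n ≠ 0 := by
      intro w hw
      obtain ⟨y, rfl⟩ := A.mkQ_surjective w
      have hyA : y ∉ A := fun h => hw ((Submodule.Quotient.mk_eq_zero A).2 h)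
      have hnd : ¬ Disjoint (A ⊔ R ∙ y) (LinearMap.range g) := by
        intro hd
        have := hAmax (A ⊔ R ∙ y) le_sup_left hd
        apply hyA
        rw [← this]
        exact (le_sup_right : R ∙ y ≤ A ⊔ R ∙ y) (Submodule.mem_span_singleton_self y)
      rw [Submodule.disjoint_def] at hnd
      push Not at hnd
      obtain ⟨z, hz, ⟨n, rfl⟩, hz0⟩ := hnd
      obtain ⟨a, ha, b, hb, hab⟩ := Submodule.mem_sup.1 hz
      obtain ⟨r, rfl⟩ := Submodule.mem_span_singleton.1 hb
      refine ⟨r, n, ?_, ?_⟩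
      · show r • A.mkQ y = A.mkQ (g n)
        rw [← hab, map_add, map_smul]
        have : A.mkQ a = 0 := (Submodule.Quotient.mk_eq_zero A).2 ha
        rw [this, zero_add]
      · rintro rfl
        exact hz0 (map_zero _)
    obtain ⟨φ, hφ⟩ := hE N (X ⧸ A) gb hgb N.subtype
    have hφinj : ∀ w : X ⧸ A, w ≠ 0 → ∃ r : R, r • φ w = x0 := by
      intro w hw
      obtain ⟨r, n, hrn, hn⟩ := hgbess w hw
      obtain ⟨s, hs⟩ := hNess.2 n n.2 (fun h => hn (Subtype.ext h))
      refine ⟨s * r, ?_⟩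
      rw [mul_smul, ← map_smul, hrn, hφ]
      exact hs
    have hrange : LinearMap.range φ ≤ N := by
      apply hNmax
      · intro n hn
        exact ⟨gb ⟨n, hn⟩, hφ ⟨n, hn⟩⟩
      · refine ⟨⟨gb ⟨x0, hNess.1⟩, hφ ⟨x0, hNess.1⟩⟩, ?_⟩
        rintro _ ⟨w, rfl⟩ hw
        exact hφinj w (by rintro rfl; exact hw (map_zero _))
    let h : X →ₗ[R] N := LinearMap.codRestrict N (φ ∘ₗ A.mkQ) (fun y => hrange ⟨A.mkQ y, rfl⟩)
    refine ⟨h, ?_⟩
    ext n
    exact hφ n

/-- Divisibility: `x` is divisible by `r` in the hull as soon as the annihilator of `r` is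
contained in `P`. -/
theorem exists_divisor {R : Type} [CommRing R] (P : Ideal R) {N : Type} [AddCommGroup N]
    [Module R N] (x : N) (hP : ∀ r ∈ P, r • x = 0)
    (hsplit : ∀ (X : Type) [AddCommGroup X] [Module R X] (g : N →ₗ[R] X),
        Function.Injective g → ∃ h : X →ₗ[R] N, h ∘ₗ g = LinearMap.id)
    (r : R) (hr : ∀ c, c * r = 0 → c ∈ P) : ∃ y : N, r • y = x := by
  let K : Submodule R (N × R) := R ∙ ((x, -r) : N × R)
  let g : N →ₗ[R] ((N × R) ⧸ K) := K.mkQ ∘ₗ LinearMap.inl R N R
  have hg : Function.Injective g := by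
    rw [← LinearMap.ker_eq_bot, LinearMap.ker_eq_bot']
    intro n hn
    have h1 : ((n, 0) : N × R) ∈ K := (Submodule.Quotient.mk_eq_zero K).1 hn
    obtain ⟨c, hc⟩ := Submodule.mem_span_singleton.1 h1
    have hc1 : c • x = n := congrArg Prod.fst hc
    have hc2 : c • (-r) = 0 := congrArg Prod.snd hc
    have : c * r = 0 := by
      have : -(c * r) = 0 := by rw [← hc2]; simp
      simpa using this
    rw [← hc1]
    exact hP c (hr c this)
  obtain ⟨h, hh⟩ := hsplit _ g hg
  refine ⟨h (K.mkQ (0, 1)), ?_⟩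
  rw [← map_smul, ← map_smul]
  have h1 : K.mkQ (r • ((0, 1) : N × R)) = g x := by
    show K.mkQ _ = K.mkQ (x, 0)
    rw [← sub_eq_zero, ← map_sub]
    apply (Submodule.Quotient.mk_eq_zero K).2
    rw [Submodule.mem_span_singleton]
    refine ⟨-1, ?_⟩
    ext <;> simp
  rw [h1]
  exact congrArg (fun t => t x) hh

end Pool.Agent.Helper78.ChainHull
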