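import Pool.Agent.Helper78.ChainHull.Hull

set_option autoImplicit false

namespace Pool.Agent.Helper78.ChainHull

open TensorProduct

/-- A pure map is injective. -/
theorem injective_of_pure {R : Type} [CommRing R] {M N : Type} [AddCommGroup M] [Module R M]
    [AddCommGroup N] [Module R N] (i : M →ₗ[R] N)
    (hi : Function.Injective (LinearMap.lTensor R i)) : Function.Injective i := by
  intro a b hab
  have h1 : LinearMap.lTensor R i ((1 : R) ⊗ₜ[R] a) = LinearMap.lTensor R i ((1 : R) ⊗ₜ[R] b) := by
    simp only [LinearMap.lTensor_tmul, hab]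
  have h2 := hi h1
  have h3 := congrArg (TensorProduct.lid R M) h2
  simpa using h3

/-- A pure map reflects divisibility. -/
theorem divisible_of_pure {R : Type} [CommRing R] {M N : Type} [AddCommGroup M] [Module R M]
    [AddCommGroup N] [Module R N] (i : M →ₗ[R] N) (r : R)
    (hi : Function.Injective (LinearMap.lTensor (R ⧸ Ideal.span {r}) i)) (m : M)
    (hm : ∃ y : N, r • y = i m) : ∃ m' : M, r • m' = m := by
  obtain ⟨y, hy⟩ := hm
  have h1 : ((1 : R ⧸ Ideal.span {r}) ⊗ₜ[R] m) = 0 := by
    apply hi
    have h0 : r • (1 : R ⧸ Ideal.span {r}) = 0 := by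
      rw [Algebra.smul_def, mul_one]
      exact Ideal.Quotient.eq_zero_iff_mem.2 (Ideal.mem_span_singleton_self r)
    rw [map_zero, LinearMap.lTensor_tmul, ← hy, ← TensorProduct.smul_tmul, h0,
      TensorProduct.zero_tmul]
  have h2 := congrArg (TensorProduct.quotTensorEquivQuotSMul M (Ideal.span {r})) h1
  rw [map_zero, TensorProduct.quotTensorEquivQuotSMul_mk_one_tmul] at h2
  have h4 : m ∈ Ideal.span {r} • (⊤ : Submodule R M) := (Submodule.Quotient.mk_eq_zero _).1 h2
  have h5 : Ideal.span {r} • (⊤ : Submodule R M) ≤ LinearMap.range (LinearMap.lsmul R M r) := by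
    rw [Submodule.smul_le]
    intro a ha z _
    obtain ⟨t, rfl⟩ := Ideal.mem_span_singleton'.1 ha
    refine ⟨t • z, ?_⟩
    rw [LinearMap.lsmul_apply, smul_smul, mul_comm]
  obtain ⟨m', hm'⟩ := h5 h4
  exact ⟨m', hm'⟩

/-- Module C of the plan: from the ring to the frozen statement. -/
theorem not_main_of_ring {V : Type} [LinearOrder V] [Nonempty V]
    (R : Type) [CommRing R] (hchain : ∀ I J : Ideal R, I ≤ J ∨ J ≤ I)
    (P : Ideal R) [P.IsMaximal] (al : V → R) (hal : ∀ v, al v ≠ 0)
    (hlt : ∀ v w, v < w → ∃ e ∈ P, al w = al v * e)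
    (hno : ¬ ∃ s : V → V → R,
      (∀ a b c, a < b → b < c → s a b * s b c - s a c ∈ Ideal.span {al c} * P) ∧
      (∀ a b, a < b → al a * s a b - al b ∈ Ideal.span {al b} * P)) :
    ¬ (∀ (R : Type) [CommRing R], (∀ I J : Ideal R, I ≤ J ∨ J ≤ I) →
  ∀ (N : Type) [AddCommGroup N] [Module R N],
    Nontrivial N →
    (∀ A B : Submodule R N, IsCompl A B → A = ⊥ ∨ B = ⊥) →
    (∀ (X : Type) [AddCommGroup X] [Module R X] (g : N →ₗ[R] X),
      (∀ (Y : Type) [AddCommGroup Y] [Module R Y],
        Function.Injective (LinearMap.lTensor Y g)) →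
      ∃ h : X →ₗ[R] N, h ∘ₗ g = LinearMap.id) →
    ∃ (M : Type) (_ : AddCommGroup M) (_ : Module R M),
      (∀ A B : Submodule R M, A ≤ B ∨ B ≤ A) ∧
      ∃ i : M →ₗ[R] N,
        (∀ (Y : Type) [AddCommGroup Y] [Module R Y],
          Function.Injective (LinearMap.lTensor Y i)) ∧
        ∀ (X : Type) [AddCommGroup X] [Module R X] (g : N →ₗ[R] X),
          (∀ (Y : Type) [AddCommGroup Y] [Module R Y],
            Function.Injective (LinearMap.lTensor Y (g ∘ₗ i))) →
          (∀ (Y : Type) [AddCommGroup Y] [Module R Y],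
            Function.Injective (LinearMap.lTensor Y g))) := by
  intro hmain
  obtain ⟨N, _, _, x, hx0, hPx, hess, hsplit⟩ := exists_hull R P
  obtain ⟨M, _, _, huni, i, hpure, hpe⟩ := hmain R hchain N ⟨x, 0, hx0⟩
    (by
      intro A B hAB
      by_contra hcon
      push Not at hcon
      have h1 := hess A hcon.1
      have h2 := hess B hcon.2
      exact hx0 ((Submodule.disjoint_def.1 hAB.disjoint) x h1 h2))
    (fun X _ _ g hg => hsplit X g (injective_of_pure g (hg R)))
  have hi : Function.Injective i := injective_of_pure i (hpure R)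
  -- non-members of `P` are units
  have hunit : ∀ r : R, r ∉ P → IsUnit r := by
    intro r hr
    by_contra hu
    obtain ⟨Q, hQ, hrQ⟩ := exists_max_ideal_of_mem_nonunits (a := r) hu
    rcases hchain P Q with h | h
    · have := (Ideal.IsMaximal.eq_of_le inferInstance hQ.ne_top h : P = Q)
      exact hr (this ▸ hrQ)
    · exact hr (h hrQ)
  -- `M` is nontrivial
  have hM : ∃ m : M, m ≠ 0 := by
    by_contra hcon
    push Not at hcon
    have hinj := hpe PUnit 0 (by
      intro Y _ _ a b _
      have hz : ∀ t : Y ⊗[R] M, t = 0 := by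
        intro t
        induction t using TensorProduct.induction_on with
        | zero => rfl
        | tmul y m => rw [hcon m, TensorProduct.tmul_zero]
        | add a b ha hb => rw [ha, hb, add_zero]
      rw [hz a, hz b])
    have h2 := injective_of_pure _ (hinj R)
    exact hx0 (h2 rfl)
  obtain ⟨m0, hm0⟩ := hM
  obtain ⟨x', hx'⟩ : x ∈ LinearMap.range i := by
    apply hess
    intro hbot
    have : i m0 ∈ (⊥ : Submodule R N) := hbot ▸ ⟨m0, rfl⟩
    exact hm0 (hi (by rw [(Submodule.mem_bot R).1 this, map_zero]))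
  have hx'0 : x' ≠ 0 := by
    rintro rfl
    exact hx0 (by rw [← hx', map_zero])
  have hPx' : ∀ r ∈ P, r • x' = 0 := by
    intro r hr
    apply hi
    rw [map_smul, hx', hPx r hr, map_zero]
  -- the divisors
  have hy : ∀ v, ∃ y : M, al v • y = x' := by
    intro v
    apply divisible_of_pure i (al v) (hpure _)
    rw [hx']
    apply exists_divisor P x hPx hsplit
    intro c hc
    by_contra hcP
    have hu := hunit c hcP
    exact hal v ((hu.mul_right_eq_zero).1 hc)
  choose y hy using hy
  have hann : ∀ v (r : R), r • y v = 0 → r ∈ Ideal.span {al v} * P := by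
    intro v r hr
    rcases hchain (Ideal.span {r}) (Ideal.span {al v}) with h | h
    · obtain ⟨t, ht⟩ := Ideal.mem_span_singleton'.1 (h (Ideal.mem_span_singleton_self r))
      -- `t * al v = r`
      have htP : t ∈ P := by
        by_contra htP
        have hu := hunit t htP
        have hr2 : t • x' = 0 := by
          rw [← hy v, ← mul_smul, ht, hr]
        exact hx'0 ((hu.smul_eq_zero).1 hr2)
      have h3 : al v * t ∈ Ideal.span {al v} * P :=
        Ideal.mul_mem_mul (Ideal.mem_span_singleton_self (al v)) htP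
      have h4 : al v * t = r := by rw [← ht]; ring
      rw [h4] at h3
      exact h3
    · obtain ⟨t, ht⟩ := Ideal.mem_span_singleton'.1 (h (Ideal.mem_span_singleton_self (al v)))
      exfalso
      apply hx'0
      rw [← hy v, ← ht, mul_smul, hr, smul_zero]
  have hs : ∀ a b, a < b → ∃ s : R, y a = s • y b := by
    intro a b hab
    rcases huni (R ∙ y a) (R ∙ y b) with h | h
    · obtain ⟨s, hs⟩ := Submodule.mem_span_singleton.1 (h (Submodule.mem_span_singleton_self _))
      exact ⟨s, hs.symm⟩
    · exfalso
      obtain ⟨s, hs⟩ := Submodule.mem_span_singleton.1 (h (Submodule.mem_span_singleton_self _))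
      obtain ⟨e, he, hab'⟩ := hlt a b hab
      apply hx'0
      have e1 : x' = (al a * e) • (s • y a) := by rw [hs, ← hab', hy]
      have e2 : (al a * e) • (s • y a) = s • (e • (al a • y a)) := by
        rw [smul_smul, smul_smul, smul_smul]
        congr 1
        ring
      rw [e1, e2, hy, hPx' e he, smul_zero]
  apply hno
  refine ⟨fun a b => if h : a < b then (hs a b h).choose else 0, ?_, ?_⟩
  · intro a b c hab hbc
    apply hann
    have h1 := (hs a b hab).choose_spec
    have h2 := (hs b c hbc).choose_spec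
    have h3 := (hs a c (hab.trans hbc)).choose_spec
    simp only [dif_pos hab, dif_pos hbc, dif_pos (hab.trans hbc)]
    rw [sub_smul, mul_smul, ← h2, ← h1, ← h3, sub_self]
  · intro a b hab
    apply hann
    have h1 := (hs a b hab).choose_spec
    simp only [dif_pos hab]
    rw [sub_smul, mul_smul, ← h1, hy, hy, sub_self]

end Pool.Agent.Helper78.ChainHull
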